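import Mathlib

set_option autoImplicit false

namespace Pool.Agent.Work.MP_1b4c08_al

open MvPolynomial

variable {K : Type} [Field K] {r : ℕ}

/-- Total exponent of `b` on the set `C`. -/
def wt (C : Finset (Fin r)) (b : Fin r →₀ ℕ) : ℕ := ∑ i ∈ C, b i

/-- The monomial prime generated by the variables in `C`. -/
noncomputable def PC (K : Type) [Field K] {r : ℕ} (C : Finset (Fin r)) :
    Ideal (MvPolynomial (Fin r) K) :=
  Ideal.span (X '' (C : Set (Fin r)))

lemma wt_add (C : Finset (Fin r)) (a b : Fin r →₀ ℕ) : wt C (a + b) = wt C a + wt C b := by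
  simp [wt, Finset.sum_add_distrib]

lemma wt_single_mem (C : Finset (Fin r)) {i : Fin r} (hi : i ∈ C) :
    wt C (Finsupp.single i 1) = 1 := by
  classical
  simp [wt, Finsupp.single_apply, hi]

lemma wt_single_not_mem (C : Finset (Fin r)) {i : Fin r} (hi : i ∉ C) :
    wt C (Finsupp.single i 1) = 0 := by
  classical
  simp [wt, Finsupp.single_apply, hi]

lemma wt_mono (C : Finset (Fin r)) {a b : Fin r →₀ ℕ} (h : a ≤ b) : wt C a ≤ wt C b :=
  Finset.sum_le_sum fun i _ => h i

lemma mem_PC (C : Finset (Fin r)) (f : MvPolynomial (Fin r) K) :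
    f ∈ PC K C ↔ ∀ b ∈ f.support, ∃ i ∈ C, b i ≠ 0 := by
  unfold PC
  rw [mem_ideal_span_X_image]
  simp

lemma mem_PC_pow (C : Finset (Fin r)) (n : ℕ) (f : MvPolynomial (Fin r) K) :
    f ∈ PC K C ^ n ↔ ∀ b ∈ f.support, n ≤ wt C b := by
  classical
  constructor
  · intro hf
    induction n generalizing f with
    | zero => intro b _; exact Nat.zero_le _
    | succ n ih =>
      rw [pow_succ] at hf
      refine Submodule.mul_induction_on hf ?_ ?_
      · intro p hp q hq b hb
        have h1 := MvPolynomial.support_mul p q hb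
        rw [Finset.mem_add] at h1
        obtain ⟨b1, hb1, b2, hb2, rfl⟩ := h1
        rw [wt_add]
        have h2 := ih p hp b1 hb1
        obtain ⟨i, hi, hi'⟩ := (mem_PC C q).1 hq b2 hb2
        have h3 : 1 ≤ wt C b2 := by
          have : b2 i ≤ wt C b2 := Finset.single_le_sum (f := fun i => b2 i) (fun _ _ => Nat.zero_le _) hi
          omega
        omega
      · intro p q hp hq b hb
        have h1 := MvPolynomial.support_add hb
        rw [Finset.mem_union] at h1
        rcases h1 with h1 | h1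
        · exact hp b h1
        · exact hq b h1
  · intro hf
    rw [f.as_sum]
    refine Ideal.sum_mem _ fun b hb => ?_
    have hn := hf b hb
    refine Ideal.pow_le_pow_right hn ?_
    rw [monomial_eq]
    refine Ideal.mul_mem_left _ _ ?_
    rw [Finsupp.prod_fintype _ _ (fun i => pow_zero _)]
    rw [← Finset.prod_mul_prod_compl C]
    refine Ideal.mul_mem_right _ _ ?_
    unfold wt
    rw [← Finset.prod_pow_eq_pow_sum]
    refine Ideal.prod_mem_prod fun i hi => ?_
    exact Ideal.pow_mem_pow (Ideal.subset_span (Set.mem_image_of_mem X (Finset.mem_coe.2 hi))) _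

/-- Evaluation at zero of the variables in `C`. -/
noncomputable def killC (K : Type) [Field K] {r : ℕ} (C : Finset (Fin r)) :
    MvPolynomial (Fin r) K →ₐ[K] MvPolynomial (Fin r) K :=
  letI := Classical.decEq (Fin r)
  aeval (fun i => if i ∈ C then 0 else X i)

lemma killC_X (C : Finset (Fin r)) (i : Fin r) :
    killC K C (X i) = if i ∈ C then 0 else X i := by
  classical
  unfold killC
  rw [aeval_X]
  congr

lemma sub_killC_mem (C : Finset (Fin r)) (f : MvPolynomial (Fin r) K) :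
    f - killC K C f ∈ PC K C := by
  classical
  induction f using MvPolynomial.induction_on with
  | C a => simp
  | add p q hp hq =>
    rw [map_add]
    have : p + q - (killC K C p + killC K C q) = (p - killC K C p) + (q - killC K C q) := by ring
    rw [this]
    exact Ideal.add_mem _ hp hq
  | mul_X p i hp =>
    rw [map_mul, killC_X]
    split_ifs with h
    · rw [mul_zero, sub_zero]
      exact Ideal.mul_mem_left _ _ (Ideal.subset_span (Set.mem_image_of_mem X (Finset.mem_coe.2 h)))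
    · rw [← sub_mul]
      exact Ideal.mul_mem_right _ _ hp

lemma ker_killC (C : Finset (Fin r)) : RingHom.ker (killC K C) = PC K C := by
  classical
  apply le_antisymm
  · intro f hf
    have h := sub_killC_mem C f
    rw [RingHom.mem_ker] at hf
    rwa [hf, sub_zero] at h
  · unfold PC
    rw [Ideal.span_le]
    rintro _ ⟨i, hi, rfl⟩
    have hi' : i ∈ C := hi
    simp [RingHom.mem_ker, killC_X, hi']

lemma PC_isPrime (C : Finset (Fin r)) : (PC K C).IsPrime := by
  rw [← ker_killC]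
  exact RingHom.ker_isPrime _

lemma X_mem_PC (C : Finset (Fin r)) (i : Fin r) :
    (X i : MvPolynomial (Fin r) K) ∈ PC K C ↔ i ∈ C := by
  classical
  rw [← ker_killC, RingHom.mem_ker, killC_X]
  split_ifs with h
  · simp [h]
  · simp [h, X_ne_zero]

lemma PC_le_iff (C D : Finset (Fin r)) : PC K C ≤ PC K D ↔ C ⊆ D := by
  constructor
  · intro h i hi
    rw [← X_mem_PC (K := K)]
    exact h ((X_mem_PC C i).2 hi)
  · intro h
    exact Ideal.span_mono (Set.image_mono (by exact_mod_cast h))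

lemma PC_injective {C D : Finset (Fin r)} (h : PC K C = PC K D) : C = D :=
  Finset.Subset.antisymm ((PC_le_iff C D).1 h.le) ((PC_le_iff D C).1 h.ge)

/-- The ideal `⋂_{C ∈ 𝒞} P_C ^ n`. -/
noncomputable def J (K : Type) [Field K] {r : ℕ} (𝒞 : Finset (Finset (Fin r))) (n : ℕ) :
    Ideal (MvPolynomial (Fin r) K) :=
  ⨅ C ∈ 𝒞, PC K C ^ n

/-- exponents of monomials outside `J`. -/
def E (𝒞 : Finset (Finset (Fin r))) (n : ℕ) (b : Fin r →₀ ℕ) : Prop :=
  ∃ C ∈ 𝒞, wt C b < n

lemma mem_J (𝒞 : Finset (Finset (Fin r))) (n : ℕ) (f : MvPolynomial (Fin r) K) :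
    f ∈ J K 𝒞 n ↔ ∀ b, E 𝒞 n b → coeff b f = 0 := by
  unfold J E
  simp only [Submodule.mem_iInf, mem_PC_pow]
  constructor
  · rintro h b ⟨C, hC, hlt⟩
    by_contra hne
    have := h C hC b (MvPolynomial.mem_support_iff.2 hne)
    omega
  · intro h C hC b hb
    by_contra hlt
    exact (MvPolynomial.mem_support_iff.1 hb) (h b ⟨C, hC, by omega⟩)

/-- the square-free monomials in the intersection of all `P_C`. -/
def Sset (𝒞 : Finset (Finset (Fin r))) : Set (Finset (Fin r)) :=
  {s | ∀ C ∈ 𝒞, ∃ i ∈ C, i ∈ s}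

lemma span_S_eq (𝒞 : Finset (Finset (Fin r))) :
    Ideal.span ((fun s : Finset (Fin r) =>
      MvPolynomial.monomial (∑ i ∈ s, Finsupp.single i 1) (1 : K)) '' (Sset 𝒞)) =
    ⨅ C ∈ 𝒞, PC K C := by
  classical
  have himg : (fun s : Finset (Fin r) =>
      MvPolynomial.monomial (∑ i ∈ s, Finsupp.single i 1) (1 : K)) '' (Sset 𝒞) =
      (fun s => MvPolynomial.monomial s (1 : K)) ''
        ((fun s : Finset (Fin r) => ∑ i ∈ s, Finsupp.single i 1) '' (Sset 𝒞)) := by
    rw [Set.image_image]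
  rw [himg]
  ext f
  rw [mem_ideal_span_monomial_image]
  simp only [Submodule.mem_iInf, mem_PC]
  constructor
  · intro h C hC b hb
    obtain ⟨si, ⟨s, hs, rfl⟩, hle⟩ := h b hb
    obtain ⟨i, hiC, his⟩ := hs C hC
    refine ⟨i, hiC, ?_⟩
    have h1 := hle i
    have h2 : (∑ i ∈ s, Finsupp.single i 1 : Fin r →₀ ℕ) i = 1 := by
      simp [Finsupp.finsetSum_apply, Finsupp.single_apply, his]
    simp only [h2] at h1
    omega
  · intro h b hb
    refine ⟨∑ i ∈ b.support, Finsupp.single i 1, ⟨b.support, ?_, rfl⟩, ?_⟩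
    · intro C hC
      obtain ⟨i, hi, hi'⟩ := h C hC b hb
      exact ⟨i, hi, Finsupp.mem_support_iff.2 hi'⟩
    · intro i
      rw [Finsupp.finsetSum_apply]
      simp only [Finsupp.single_apply]
      by_cases hi : b i = 0
      · simp [hi]
      · simp [hi]
        omega

lemma minimalPrimes_eq (𝒞 : Finset (Finset (Fin r)))
    (hanti : ∀ C ∈ 𝒞, ∀ D ∈ 𝒞, C ⊆ D → C = D) :
    (⨅ C ∈ 𝒞, PC K C).minimalPrimes = (fun C => PC K C) '' (𝒞 : Set (Finset (Fin r))) := by
  classical
  have key : ∀ q : Ideal (MvPolynomial (Fin r) K), q.IsPrime → (⨅ C ∈ 𝒞, PC K C) ≤ q →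
      ∃ C ∈ 𝒞, PC K C ≤ q := by
    intro q hq hle
    have h1 : 𝒞.inf (fun C => PC K C) ≤ q := by
      rw [Finset.inf_eq_iInf]; exact hle
    exact (Ideal.IsPrime.inf_le' hq).1 h1
  ext q
  constructor
  · intro hq
    obtain ⟨⟨hqp, hqle⟩, hmin⟩ := hq
    obtain ⟨C, hC, hCq⟩ := key q hqp hqle
    refine ⟨C, hC, le_antisymm hCq ?_⟩
    exact hmin ⟨PC_isPrime C, iInf₂_le C hC⟩ hCq
  · rintro ⟨C, hC, rfl⟩
    refine ⟨⟨PC_isPrime C, iInf₂_le C hC⟩, ?_⟩
    rintro q ⟨hqp, hqle⟩ hqC
    obtain ⟨D, hD, hDq⟩ := key q hqp hqle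
    have : D = C := hanti D hD C hC ((PC_le_iff D C).1 (hDq.trans hqC))
    subst this
    exact hDq

lemma symb_eq (𝒞 : Finset (Finset (Fin r)))
    (hanti : ∀ C ∈ 𝒞, ∀ D ∈ 𝒞, C ⊆ D → C = D) (n : ℕ) :
    (⨅ P ∈ Ideal.minimalPrimes (Ideal.span ((fun s : Finset (Fin r) =>
      MvPolynomial.monomial (∑ i ∈ s, Finsupp.single i 1) (1 : K)) '' (Sset 𝒞))), P ^ n) =
    J K 𝒞 n := by
  rw [span_S_eq, minimalPrimes_eq 𝒞 hanti, iInf_image]
  rfl

end Pool.Agent.Work.MP_1b4c08_al
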