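import Mathlib
import Pool.Agent.Work.MP_1b4c08_al.Basic

set_option autoImplicit false

namespace Pool.Agent.Work.MP_1b4c08_al

open MvPolynomial

section General

variable {R : Type*} [CommRing R]

/-- If no nonzero element of `M` is killed by the maximal ideal `m`, some element of `m` is
regular on `M`. -/
lemma exists_regular [IsNoetherianRing R] {M : Type*} [AddCommGroup M] [Module R M]
    [Module.Finite R M] (m : Ideal R) [hm : m.IsMaximal]
    (h : ∀ f : M, (∀ x ∈ m, x • f = 0) → f = 0) : ∃ x ∈ m, IsSMulRegular M x := by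
  by_contra hcon
  push Not at hcon
  have h1 : (m : Set R) ⊆ ⋃ p ∈ associatedPrimes R M, (p : Set R) := by
    rw [biUnion_associatedPrimes_eq_zero_divisors]
    intro x hx
    have h2 := hcon x hx
    rw [isSMulRegular_iff_right_eq_zero_of_smul] at h2
    push Not at h2
    obtain ⟨z, hz1, hz2⟩ := h2
    exact ⟨z, hz2, hz1⟩
  have h2 : m ∈ associatedPrimes R M := by
    refine (Ideal.subset_iUnion_iff_mem_of_isMaximal_of_finite (associatedPrimes.finite R M)
      ⊥ ⊥ ?_ ?_ ?_).1 h1
    · intro I hI _ _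
      exact hI.isPrime
    · intro h3
      have : m = ⊤ := by rw [eq_top_iff, ← h3]; exact bot_le
      exact hm.ne_top this
    · intro h3
      have : m = ⊤ := by rw [eq_top_iff, ← h3]; exact bot_le
      exact hm.ne_top this
  rw [AssociatedPrimes.mem_iff, isAssociatedPrime_iff] at h2
  obtain ⟨_, z, hz⟩ := h2
  have h3 : z = 0 := by
    apply h
    intro x hx
    rw [hz] at hx
    simpa [Submodule.mem_colon_singleton] using hx
  apply hm.ne_top
  rw [hz, h3]
  rw [Ideal.eq_top_iff_one]
  simp [Submodule.mem_colon_singleton]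

/-- The `depth at least two` criterion. -/
lemma exists_regular_pair [IsNoetherianRing R] {M : Type*} [AddCommGroup M] [Module R M]
    [Module.Finite R M] (m : Ideal R) [hm : m.IsMaximal] {ι : Type*} (X : ι → R)
    (hX : m = Ideal.span (Set.range X))
    (H0 : ∀ f : M, (∀ i, X i • f = 0) → f = 0)
    (H1 : ∀ g : ι → M, (∀ i k, X k • g i = X i • g k) → ∃ h : M, ∀ i, g i = X i • h)
    (hne : ∀ rs : List R, (∀ x ∈ rs, x ∈ m) → (⊤ : Submodule R M) ≠ Ideal.ofList rs • ⊤) :
    ∃ rs : List R, rs.length = 2 ∧ (∀ x ∈ rs, x ∈ m) ∧ RingTheory.Sequence.IsRegular M rs := by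
  have hXm : ∀ i, X i ∈ m := fun i => by rw [hX]; exact Ideal.subset_span ⟨i, rfl⟩
  obtain ⟨x, hx, hxr⟩ := exists_regular (M := M) m (fun f hf => H0 f fun i => hf _ (hXm i))
  obtain ⟨y, hy, hyr⟩ := exists_regular (M := QuotSMulTop x M) m (by
    intro f hf
    obtain ⟨f, rfl⟩ := Submodule.Quotient.mk_surjective _ f
    have h1 : ∀ i, ∃ g : M, x • g = X i • f := by
      intro i
      have h2 := hf (X i) (hXm i)
      rw [← Submodule.Quotient.mk_smul, Submodule.Quotient.mk_eq_zero] at h2
      rw [Submodule.mem_smul_pointwise_iff_exists] at h2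
      obtain ⟨g, _, hg⟩ := h2
      exact ⟨g, hg⟩
    choose g hg using h1
    obtain ⟨h, hh⟩ := H1 g (by
      intro i k
      apply hxr
      show x • X k • g i = x • X i • g k
      rw [smul_comm x (X k), smul_comm x (X i), hg, hg, smul_comm])
    have h3 : f = x • h := by
      rw [← sub_eq_zero]
      apply H0
      intro i
      rw [smul_sub, ← hg i, hh i, smul_comm x (X i), sub_self]
    rw [Submodule.Quotient.mk_eq_zero, Submodule.mem_smul_pointwise_iff_exists]
    exact ⟨h, trivial, h3.symm⟩)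
  refine ⟨[x, y], rfl, ?_, ?_⟩
  · intro z hz
    simp only [List.mem_cons, List.not_mem_nil, or_false] at hz
    rcases hz with rfl | rfl
    · exact hx
    · exact hy
  · refine ⟨?_, hne _ ?_⟩
    · rw [RingTheory.Sequence.isWeaklyRegular_cons_iff, RingTheory.Sequence.isWeaklyRegular_cons_iff]
      exact ⟨hxr, hyr, RingTheory.Sequence.IsWeaklyRegular.nil _ _⟩
    · intro z hz
      simp only [List.mem_cons, List.not_mem_nil, or_false] at hz
      rcases hz with rfl | rfl
      · exact hx
      · exact hy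

lemma top_ne_ofList_smul (m J : Ideal R) (hm : m ≠ ⊤) (hJ : J ≤ m) (rs : List R)
    (hrs : ∀ x ∈ rs, x ∈ m) :
    (⊤ : Submodule R (R ⧸ J)) ≠ Ideal.ofList rs • ⊤ := by
  intro h
  have h1 : Ideal.ofList rs ≤ m := Ideal.span_le.2 hrs
  have h2 : ∀ z ∈ (Ideal.ofList rs • ⊤ : Submodule R (R ⧸ J)),
      Ideal.Quotient.factor hJ z = 0 := by
    intro z hz
    refine Submodule.smul_induction_on hz ?_ ?_
    · intro a ha w _
      obtain ⟨w, rfl⟩ := Ideal.Quotient.mk_surjective w
      rw [← Ideal.Quotient.mk_eq_mk, ← Submodule.Quotient.mk_smul, Ideal.Quotient.mk_eq_mk,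
        Ideal.Quotient.factor_mk, Ideal.Quotient.eq_zero_iff_mem]
      exact Ideal.mul_mem_right _ _ (h1 ha)
    · intro a b ha hb
      rw [map_add, ha, hb, add_zero]
  have h3 := h2 (Ideal.Quotient.mk J 1) (by rw [← h]; trivial)
  rw [Ideal.Quotient.factor_mk, Ideal.Quotient.eq_zero_iff_mem] at h3
  exact hm ((Ideal.eq_top_iff_one m).2 h3)

end General

end Pool.Agent.Work.MP_1b4c08_al
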