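import Mathlib
import Pool.Agent.Work.MP_1b4c08_al.Depth

set_option autoImplicit false

namespace Pool.Agent.Work.MP_1b4c08_al

open MvPolynomial

variable {K : Type} [Field K] {r : ℕ}

lemma E_mono (𝒞 : Finset (Finset (Fin r))) (n : ℕ) {a b : Fin r →₀ ℕ} (h : a ≤ b)
    (hb : E 𝒞 n b) : E 𝒞 n a := by
  obtain ⟨C, hC, hlt⟩ := hb
  exact ⟨C, hC, lt_of_le_of_lt (wt_mono C h) hlt⟩

lemma coeff_X_mul_add (f : MvPolynomial (Fin r) K) (i : Fin r) (b : Fin r →₀ ℕ) :
    coeff (b + Finsupp.single i 1) (X i * f) = coeff b f := by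
  rw [add_comm b, coeff_X_mul]

lemma coeff_X_mul_zero (f : MvPolynomial (Fin r) K) (i : Fin r) (b : Fin r →₀ ℕ) (hb : b i = 0) :
    coeff b (X i * f) = 0 := by
  classical
  rw [coeff_X_mul']
  simp [hb]

/-- No nonzero element of `R / J` is killed by all variables, if no `C` is everything. -/
lemma H0_aux (𝒞 : Finset (Finset (Fin r))) (n : ℕ) (hC : ∀ C ∈ 𝒞, C ≠ Finset.univ)
    (f : MvPolynomial (Fin r) K) (hf : ∀ i, X i * f ∈ J K 𝒞 n) : f ∈ J K 𝒞 n := by
  rw [mem_J]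
  rintro b ⟨C, hCm, hlt⟩
  obtain ⟨i, hi⟩ : ∃ i, i ∉ C := by
    by_contra hcon
    push Not at hcon
    exact hC C hCm (Finset.eq_univ_iff_forall.2 hcon)
  have h1 := (mem_J 𝒞 n _).1 (hf i) (b + Finsupp.single i 1)
    ⟨C, hCm, by rw [wt_add, wt_single_not_mem C hi]; omega⟩
  rwa [coeff_X_mul_add] at h1

/-- The gluing statement. -/
lemma H1_aux (𝒞 : Finset (Finset (Fin r))) (n : ℕ) (C₁ C₂ : Finset (Fin r))
    (hcard : ∀ C ∈ 𝒞, ∀ i, ∃ k, k ≠ i ∧ k ∉ C)
    (hpair : ∀ C ∈ 𝒞, ∀ D ∈ 𝒞, (∃ l, l ∉ C ∧ l ∉ D) ∨ (C = C₁ ∧ D = C₂) ∨ (C = C₂ ∧ D = C₁))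
    (hinf : ∀ a : Fin r →₀ ℕ, wt C₁ a < n → wt C₂ a < n →
      ∃ D ∈ 𝒞, D ≠ C₁ ∧ D ≠ C₂ ∧ wt D a < n)
    (g : Fin r → MvPolynomial (Fin r) K)
    (hg : ∀ i k, X k * g i - X i * g k ∈ J K 𝒞 n) :
    ∃ h : MvPolynomial (Fin r) K, ∀ i, g i - X i * h ∈ J K 𝒞 n := by
  classical
  -- basic comparison
  have step : ∀ (a : Fin r →₀ ℕ) (i k : Fin r), i ≠ k →
      E 𝒞 n (a + Finsupp.single i 1 + Finsupp.single k 1) →
      coeff (a + Finsupp.single i 1) (g i) = coeff (a + Finsupp.single k 1) (g k) := by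
    intro a i k hik hE
    have h1 := (mem_J 𝒞 n _).1 (hg i k) _ hE
    rw [coeff_sub, coeff_X_mul_add] at h1
    have h2 : a + Finsupp.single i 1 + Finsupp.single k 1 =
      (a + Finsupp.single k 1) + Finsupp.single i 1 := by abel
    rw [h2, coeff_X_mul_add, sub_eq_zero] at h1
    exact h1
  -- comparison through a common non-element of an active set
  have step2 : ∀ (a : Fin r →₀ ℕ) (i l : Fin r) (C : Finset (Fin r)), C ∈ 𝒞 →
      wt C (a + Finsupp.single i 1) < n → l ∉ C →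
      coeff (a + Finsupp.single i 1) (g i) = coeff (a + Finsupp.single l 1) (g l) := by
    intro a i l C hC hlt hl
    by_cases hil : i = l
    · subst hil; rfl
    · refine step a i l hil ⟨C, hC, ?_⟩
      rw [wt_add, wt_single_not_mem C hl]; omega
  have wtle : ∀ (C : Finset (Fin r)) (a : Fin r →₀ ℕ) (i : Fin r),
      wt C a ≤ wt C (a + Finsupp.single i 1) := by
    intro C a i; rw [wt_add]; omega
  have well : ∀ (a : Fin r →₀ ℕ) (i k : Fin r), E 𝒞 n (a + Finsupp.single i 1) →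
      E 𝒞 n (a + Finsupp.single k 1) →
      coeff (a + Finsupp.single i 1) (g i) = coeff (a + Finsupp.single k 1) (g k) := by
    rintro a i k ⟨C, hC, hClt⟩ ⟨D, hD, hDlt⟩
    have third : ∀ D' ∈ 𝒞, wt D' a < n → (∃ l, l ∉ C ∧ l ∉ D') → (∃ l, l ∉ D' ∧ l ∉ D) →
        coeff (a + Finsupp.single i 1) (g i) = coeff (a + Finsupp.single k 1) (g k) := by
      rintro D' hD' hD'lt ⟨l, hlC, hlD'⟩ ⟨l', hl'D', hl'D⟩
      rw [step2 a i l C hC hClt hlC, step2 a k l' D hD hDlt hl'D]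
      exact step2 a l l' D' hD' (by rw [wt_add, wt_single_not_mem D' hlD']; omega) hl'D'
    rcases hpair C hC D hD with ⟨l, hlC, hlD⟩ | ⟨rfl, rfl⟩ | ⟨rfl, rfl⟩
    · rw [step2 a i l C hC hClt hlC, step2 a k l D hD hDlt hlD]
    · obtain ⟨D', hD', hD'1, hD'2, hD'lt⟩ := hinf a (lt_of_le_of_lt (wtle _ _ _) hClt)
        (lt_of_le_of_lt (wtle _ _ _) hDlt)
      refine third D' hD' hD'lt ?_ ?_
      · rcases hpair C hC D' hD' with h | ⟨_, h⟩ | ⟨_, h⟩
        · exact h
        · exact absurd h hD'2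
        · exact absurd h hD'1
      · rcases hpair D' hD' D hD with h | ⟨h, _⟩ | ⟨h, _⟩
        · exact h
        · exact absurd h hD'1
        · exact absurd h hD'2
    · obtain ⟨D', hD', hD'1, hD'2, hD'lt⟩ := hinf a (lt_of_le_of_lt (wtle _ _ _) hDlt)
        (lt_of_le_of_lt (wtle _ _ _) hClt)
      refine third D' hD' hD'lt ?_ ?_
      · rcases hpair C hC D' hD' with h | ⟨_, h⟩ | ⟨_, h⟩
        · exact h
        · exact absurd h hD'2
        · exact absurd h hD'1
      · rcases hpair D' hD' D hD with h | ⟨h, _⟩ | ⟨h, _⟩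
        · exact h
        · exact absurd h hD'1
        · exact absurd h hD'2
  have vanish : ∀ (b : Fin r →₀ ℕ) (i : Fin r), E 𝒞 n b → b i = 0 → coeff b (g i) = 0 := by
    rintro b i ⟨C, hC, hlt⟩ hbi
    obtain ⟨k, hki, hkC⟩ := hcard C hC i
    have hE : E 𝒞 n (b + Finsupp.single k 1) :=
      ⟨C, hC, by rw [wt_add, wt_single_not_mem C hkC]; omega⟩
    have h1 := (mem_J 𝒞 n _).1 (hg i k) _ hE
    rw [coeff_sub, coeff_X_mul_add, coeff_X_mul_zero, sub_zero] at h1
    · exact h1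
    · simp [hbi, hki]
  -- the glued coefficient function
  let c : (Fin r →₀ ℕ) → K := fun a =>
    if h : ∃ i, E 𝒞 n (a + Finsupp.single i 1) then
      coeff (a + Finsupp.single h.choose 1) (g h.choose) else 0
  have hc : ∀ (a : Fin r →₀ ℕ) (i : Fin r), E 𝒞 n (a + Finsupp.single i 1) →
      c a = coeff (a + Finsupp.single i 1) (g i) := by
    intro a i hE
    have hex : ∃ i, E 𝒞 n (a + Finsupp.single i 1) := ⟨i, hE⟩
    show (if h : ∃ i, E 𝒞 n (a + Finsupp.single i 1) then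
      coeff (a + Finsupp.single h.choose 1) (g h.choose) else 0) = _
    rw [dif_pos hex]
    exact well a _ _ hex.choose_spec hE
  have hfin : (Function.support c).Finite := by
    have h1 : Function.support c ⊆ ⋃ i : Fin r,
        (fun a : Fin r →₀ ℕ => a + Finsupp.single i 1) ⁻¹' ((g i).support : Set (Fin r →₀ ℕ)) := by
      intro a ha
      rw [Function.mem_support] at ha
      by_cases hex : ∃ i, E 𝒞 n (a + Finsupp.single i 1)
      · obtain ⟨i, hi⟩ := hex
        rw [hc a i hi] at ha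
        rw [Set.mem_iUnion]
        exact ⟨i, by simpa [MvPolynomial.mem_support_iff] using ha⟩
      · exact absurd (dif_neg hex) ha
    refine Set.Finite.subset (Set.finite_iUnion fun i => ?_) h1
    exact Set.Finite.preimage (fun a _ b _ h => add_right_cancel h) (Finset.finite_toSet _)
  let h : MvPolynomial (Fin r) K := AddMonoidAlgebra.ofCoeff (Finsupp.ofSupportFinite c hfin)
  have hcoeff : ∀ a, coeff a h = c a := fun a => rfl
  refine ⟨h, fun i => ?_⟩
  rw [mem_J]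
  intro b hb
  rw [coeff_sub]
  by_cases hbi : b i = 0
  · rw [vanish b i hb hbi, coeff_X_mul_zero _ _ _ hbi, sub_zero]
  · have hb' : b = (b - Finsupp.single i 1) + Finsupp.single i 1 := by
      ext k
      by_cases hk : k = i
      · subst hk; simp; omega
      · simp [Finsupp.single_apply, Ne.symm hk]
    rw [hb'] at hb ⊢
    rw [coeff_X_mul_add, hcoeff, hc _ i hb, sub_self]

end Pool.Agent.Work.MP_1b4c08_al
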