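import Mathlib
import Pool.Agent.Work.MP_1b4c08_al.Lower

set_option autoImplicit false

namespace Pool.Agent.Work.MP_1b4c08_al

open MvPolynomial
open scoped Pointwise

variable {K : Type} [Field K] {r : ℕ}

/-- The irrelevant ideal. -/
noncomputable def mI (K : Type) [Field K] (r : ℕ) : Ideal (MvPolynomial (Fin r) K) :=
  Ideal.span (Set.range (MvPolynomial.X : Fin r → MvPolynomial (Fin r) K))

lemma mI_eq_ker : mI K r = RingHom.ker (constantCoeff (R := K) (σ := Fin r)) := by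
  apply le_antisymm
  · unfold mI
    rw [Ideal.span_le]
    rintro _ ⟨i, rfl⟩
    simp [RingHom.mem_ker]
  · intro f hf
    have : mI K r = Ideal.span (X '' (Set.univ : Set (Fin r))) := by
      rw [Set.image_univ]; rfl
    rw [this, mem_ideal_span_X_image]
    intro b hb
    by_contra hcon
    push Not at hcon
    have hb0 : b = 0 := by
      ext i
      exact hcon i trivial
    rw [RingHom.mem_ker, constantCoeff_eq] at hf
    rw [hb0, MvPolynomial.mem_support_iff] at hb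
    exact hb hf

instance mI_isMaximal : (mI K r).IsMaximal := by
  rw [mI_eq_ker]
  apply RingHom.ker_isMaximal_of_surjective
  intro a
  exact ⟨C a, by simp⟩

lemma PC_le_mI (C : Finset (Fin r)) : PC K C ≤ mI K r :=
  Ideal.span_mono (Set.image_subset_range _ _)

lemma J_le_mI (𝒞 : Finset (Finset (Fin r))) (n : ℕ) (hn : 1 ≤ n) (h : 𝒞.Nonempty) :
    J K 𝒞 n ≤ mI K r := by
  obtain ⟨C, hC⟩ := h
  calc J K 𝒞 n ≤ PC K C ^ n := iInf₂_le C hC
    _ ≤ PC K C := Ideal.pow_le_self (by omega)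
    _ ≤ mI K r := PC_le_mI C

/-- Lengths of regular sequences in the irrelevant ideal on `R / J`. -/
def T (K : Type) [Field K] {r : ℕ} (𝒞 : Finset (Finset (Fin r))) (n : ℕ) : Set ℕ :=
  {k : ℕ | ∃ rs : List (MvPolynomial (Fin r) K), rs.length = k ∧
    (∀ x ∈ rs, x ∈ Ideal.span (Set.range (MvPolynomial.X : Fin r → MvPolynomial (Fin r) K))) ∧
    RingTheory.Sequence.IsRegular (MvPolynomial (Fin r) K ⧸ J K 𝒞 n) rs}

lemma smul_eq_mul_mk (𝒞 : Finset (Finset (Fin r))) (n : ℕ) (x f : MvPolynomial (Fin r) K) :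
    x • (Ideal.Quotient.mk (J K 𝒞 n) f) = Ideal.Quotient.mk (J K 𝒞 n) (x * f) := rfl

lemma one_mem_T (𝒞 : Finset (Finset (Fin r))) (n : ℕ) (hn : 1 ≤ n) (hne : 𝒞.Nonempty)
    (hC : ∀ C ∈ 𝒞, C ≠ Finset.univ) : 1 ∈ T K 𝒞 n := by
  have hJ := J_le_mI (K := K) 𝒞 n hn hne
  obtain ⟨x, hx, hxr⟩ := exists_regular (M := MvPolynomial (Fin r) K ⧸ J K 𝒞 n) (mI K r) (by
    intro f hf
    obtain ⟨f, rfl⟩ := Ideal.Quotient.mk_surjective f
    rw [Ideal.Quotient.eq_zero_iff_mem]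
    refine H0_aux 𝒞 n hC f fun i => ?_
    have h1 := hf (X i) (Ideal.subset_span ⟨i, rfl⟩)
    rw [smul_eq_mul_mk, Ideal.Quotient.eq_zero_iff_mem] at h1
    exact h1)
  have hmem : ∀ z ∈ [x], z ∈ mI K r := by
    intro z hz
    rw [List.mem_singleton] at hz
    rw [hz]; exact hx
  refine ⟨[x], rfl, hmem, ?_, top_ne_ofList_smul _ _ mI_isMaximal.ne_top hJ _ hmem⟩
  rw [RingTheory.Sequence.isWeaklyRegular_cons_iff]
  exact ⟨hxr, RingTheory.Sequence.IsWeaklyRegular.nil _ _⟩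

lemma two_mem_T (𝒞 : Finset (Finset (Fin r))) (n : ℕ) (hn : 1 ≤ n) (hne : 𝒞.Nonempty)
    (C₁ C₂ : Finset (Fin r))
    (hcard : ∀ C ∈ 𝒞, ∀ i, ∃ k, k ≠ i ∧ k ∉ C)
    (hpair : ∀ C ∈ 𝒞, ∀ D ∈ 𝒞, (∃ l, l ∉ C ∧ l ∉ D) ∨ (C = C₁ ∧ D = C₂) ∨ (C = C₂ ∧ D = C₁))
    (hC : ∀ C ∈ 𝒞, C ≠ Finset.univ)
    (hinf : ∀ a : Fin r →₀ ℕ, wt C₁ a < n → wt C₂ a < n →
      ∃ D ∈ 𝒞, D ≠ C₁ ∧ D ≠ C₂ ∧ wt D a < n) : 2 ∈ T K 𝒞 n := by
  have hJ := J_le_mI (K := K) 𝒞 n hn hne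
  obtain ⟨rs, h1, h2, h3⟩ := exists_regular_pair (M := MvPolynomial (Fin r) K ⧸ J K 𝒞 n)
    (mI K r) (X : Fin r → MvPolynomial (Fin r) K) rfl
    (by
      intro f hf
      obtain ⟨f, rfl⟩ := Ideal.Quotient.mk_surjective f
      rw [Ideal.Quotient.eq_zero_iff_mem]
      refine H0_aux 𝒞 n hC f fun i => ?_
      have h1 := hf i
      rw [smul_eq_mul_mk, Ideal.Quotient.eq_zero_iff_mem] at h1
      exact h1)
    (by
      intro g hg
      have h1 : ∀ i, ∃ g' : MvPolynomial (Fin r) K, Ideal.Quotient.mk (J K 𝒞 n) g' = g i :=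
        fun i => Ideal.Quotient.mk_surjective (g i)
      choose g' hg' using h1
      obtain ⟨h, hh⟩ := H1_aux 𝒞 n C₁ C₂ hcard hpair hinf g' (by
        intro i k
        have h2 := hg i k
        rw [← hg', ← hg', smul_eq_mul_mk, smul_eq_mul_mk, Ideal.Quotient.eq] at h2
        exact h2)
      refine ⟨Ideal.Quotient.mk _ h, fun i => ?_⟩
      rw [smul_eq_mul_mk, ← hg', Ideal.Quotient.eq]
      exact hh i)
    (fun rs hrs => top_ne_ofList_smul _ _ mI_isMaximal.ne_top hJ _ hrs)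
  exact ⟨rs, h1, h2, h3⟩

/-- Upper bound for the depth. -/
lemma no_pair (𝒞 : Finset (Finset (Fin r))) (n : ℕ)
    (C₁ C₂ : Finset (Fin r)) (h₁ : C₁ ∈ 𝒞) (h₂ : C₂ ∈ 𝒞)
    (hun : C₁ ∪ C₂ = Finset.univ) (hi₁ : ∃ i, i ∉ C₁) (hi₂ : ∃ i, i ∉ C₂)
    (a : Fin r →₀ ℕ) (ha₁ : wt C₁ a < n) (ha₂ : wt C₂ a < n)
    (hE : ∀ i ∈ C₁, ∀ k ∈ C₂, ¬ E 𝒞 n (a + Finsupp.single i 1 + Finsupp.single k 1))
    (x y : MvPolynomial (Fin r) K) (hx : x ∈ mI K r) (hy : y ∈ mI K r)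
    (hxr : IsSMulRegular (MvPolynomial (Fin r) K ⧸ J K 𝒞 n) x)
    (hyr : IsSMulRegular (QuotSMulTop x (MvPolynomial (Fin r) K ⧸ J K 𝒞 n)) y) : False := by
  classical
  obtain ⟨i, hi⟩ := hi₁
  obtain ⟨k, hk⟩ := hi₂
  have hsup : mI K r = PC K C₂ ⊔ PC K C₁ := by
    unfold mI PC
    rw [← Ideal.span_union, ← Set.image_union, ← Finset.coe_union, Finset.union_comm, hun,
      Finset.coe_univ, Set.image_univ]
  rw [hsup] at hx hy
  obtain ⟨x1, hx1, x2, hx2, rfl⟩ := Submodule.mem_sup.1 hx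
  obtain ⟨y1, hy1, y2, hy2, rfl⟩ := Submodule.mem_sup.1 hy
  set u : MvPolynomial (Fin r) K := monomial a 1 with hu
  -- products of the two ideals kill u
  have hkill : ∀ p ∈ PC K C₁, ∀ q ∈ PC K C₂, p * q * u ∈ J K 𝒞 n := by
    intro p hp q hq
    rw [mem_J]
    intro b hb
    by_contra hne
    have hb1 : b ∈ (p * q * u).support := MvPolynomial.mem_support_iff.2 hne
    have hb2 := MvPolynomial.support_mul _ _ hb1
    rw [Finset.mem_add] at hb2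
    obtain ⟨b1, hb1', b2, hb2', rfl⟩ := hb2
    have hb3 := MvPolynomial.support_mul _ _ hb1'
    rw [Finset.mem_add] at hb3
    obtain ⟨b3, hb3', b4, hb4', rfl⟩ := hb3
    obtain ⟨i', hi', hi''⟩ := (mem_PC C₁ p).1 hp b3 hb3'
    obtain ⟨k', hk', hk''⟩ := (mem_PC C₂ q).1 hq b4 hb4'
    have hb2eq : b2 = a := by
      have := MvPolynomial.support_monomial_subset hb2'
      simpa using this
    subst hb2eq
    refine hE i' hi' k' hk' (E_mono 𝒞 n ?_ hb)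
    have l1 : Finsupp.single i' 1 ≤ b3 := by
      rw [Finsupp.single_le_iff]; omega
    have l2 : Finsupp.single k' 1 ≤ b4 := by
      rw [Finsupp.single_le_iff]; omega
    calc b2 + Finsupp.single i' 1 + Finsupp.single k' 1 ≤ b2 + b3 + b4 := by gcongr
      _ = b3 + b4 + b2 := by abel
  -- y * (x1 u) is in x M
  have h1 : ∃ h : MvPolynomial (Fin r) K, (x1 + x2) * h - x1 * u ∈ J K 𝒞 n := by
    have h2 : Submodule.Quotient.mk (p := ((x1 + x2) • ⊤ :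
        Submodule (MvPolynomial (Fin r) K) (MvPolynomial (Fin r) K ⧸ J K 𝒞 n)))
        (Ideal.Quotient.mk (J K 𝒞 n) (x1 * u)) = 0 := by
      have h3 := isSMulRegular_iff_right_eq_zero_of_smul.1 hyr
      apply h3
      rw [← Submodule.Quotient.mk_smul, Submodule.Quotient.mk_eq_zero,
        Submodule.mem_smul_pointwise_iff_exists]
      refine ⟨Ideal.Quotient.mk (J K 𝒞 n) (y1 * u), trivial, ?_⟩
      rw [smul_eq_mul_mk, smul_eq_mul_mk, Ideal.Quotient.eq]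
      have h4 : (x1 + x2) * (y1 * u) - (y1 + y2) * (x1 * u) = x2 * y1 * u - y2 * x1 * u := by ring
      rw [h4]
      exact Ideal.sub_mem _ (hkill x2 hx2 y1 hy1) (hkill y2 hy2 x1 hx1)
    rw [Submodule.Quotient.mk_eq_zero, Submodule.mem_smul_pointwise_iff_exists] at h2
    obtain ⟨h, _, hh⟩ := h2
    obtain ⟨h, rfl⟩ := Ideal.Quotient.mk_surjective h
    rw [smul_eq_mul_mk, Ideal.Quotient.eq] at hh
    exact ⟨h, hh⟩
  obtain ⟨h, hh⟩ := h1
  have hreg : ∀ p : MvPolynomial (Fin r) K, (x1 + x2) * p ∈ J K 𝒞 n → p ∈ J K 𝒞 n := by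
    intro p hp
    have h3 := isSMulRegular_iff_right_eq_zero_of_smul.1 hxr (Ideal.Quotient.mk (J K 𝒞 n) p) (by
      rw [smul_eq_mul_mk, Ideal.Quotient.eq_zero_iff_mem]; exact hp)
    rwa [Ideal.Quotient.eq_zero_iff_mem] at h3
  have hi2 : i ∈ C₂ := by
    have : i ∈ C₁ ∪ C₂ := by rw [hun]; exact Finset.mem_univ _
    rcases Finset.mem_union.1 this with h | h
    · exact absurd h hi
    · exact h
  have hk1 : k ∈ C₁ := by
    have : k ∈ C₁ ∪ C₂ := by rw [hun]; exact Finset.mem_univ _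
    rcases Finset.mem_union.1 this with h | h
    · exact h
    · exact absurd h hk
  have e1 : X i * u - X i * h ∈ J K 𝒞 n := by
    apply hreg
    have : (x1 + x2) * (X i * u - X i * h) =
      x2 * X i * u - X i * ((x1 + x2) * h - x1 * u) := by ring
    rw [this]
    exact Ideal.sub_mem _ (hkill x2 hx2 (X i) ((X_mem_PC _ _).2 hi2)) (Ideal.mul_mem_left _ _ hh)
  have e2 : X k * h ∈ J K 𝒞 n := by
    apply hreg
    have : (x1 + x2) * (X k * h) = X k * ((x1 + x2) * h - x1 * u) + X k * x1 * u := by ring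
    rw [this]
    exact Ideal.add_mem _ (Ideal.mul_mem_left _ _ hh) (hkill (X k) ((X_mem_PC _ _).2 hk1) x1 hx1)
  have c1 := (mem_J 𝒞 n _).1 e1 (a + Finsupp.single i 1)
    ⟨C₁, h₁, by rw [wt_add, wt_single_not_mem _ hi]; omega⟩
  have c2 := (mem_J 𝒞 n _).1 e2 (a + Finsupp.single k 1)
    ⟨C₂, h₂, by rw [wt_add, wt_single_not_mem _ hk]; omega⟩
  rw [coeff_X_mul_add] at c2
  rw [coeff_sub, coeff_X_mul_add, coeff_X_mul_add, c2, hu, coeff_monomial] at c1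
  simp at c1

lemma sSup_eq_one (𝒞 : Finset (Finset (Fin r))) (n : ℕ)
    (C₁ C₂ : Finset (Fin r)) (h₁ : C₁ ∈ 𝒞) (h₂ : C₂ ∈ 𝒞)
    (hC : ∀ C ∈ 𝒞, C ≠ Finset.univ)
    (hun : C₁ ∪ C₂ = Finset.univ)
    (a : Fin r →₀ ℕ) (ha₁ : wt C₁ a < n) (ha₂ : wt C₂ a < n)
    (hE : ∀ i ∈ C₁, ∀ k ∈ C₂, ¬ E 𝒞 n (a + Finsupp.single i 1 + Finsupp.single k 1)) :
    sSup (T K 𝒞 n) = 1 := by
  have hex : ∀ C ∈ 𝒞, ∃ i, i ∉ C := by
    intro C hCm
    by_contra hcon
    push Not at hcon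
    exact hC C hCm (Finset.eq_univ_iff_forall.2 hcon)
  refine IsGreatest.csSup_eq ⟨one_mem_T 𝒞 n (by omega) ⟨C₁, h₁⟩ hC, ?_⟩
  rintro k ⟨rs, hlen, hmem, hreg⟩
  by_contra hk
  match rs, hlen, hmem, hreg with
  | [], hlen, _, _ => simp at hlen; omega
  | [_], hlen, _, _ => simp at hlen; omega
  | x :: y :: t, hlen, hmem, hreg =>
    rw [RingTheory.Sequence.isRegular_cons_iff, RingTheory.Sequence.isRegular_cons_iff] at hreg
    exact no_pair 𝒞 n C₁ C₂ h₁ h₂ hun (hex _ h₁) (hex _ h₂) a ha₁ ha₂ hE x y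
      (hmem x (by simp)) (hmem y (by simp)) hreg.1 hreg.2.1

lemma sSup_ne_one {S : Set ℕ} (h : 2 ∈ S) : sSup S ≠ 1 := by
  by_cases hb : BddAbove S
  · have := le_csSup hb h
    omega
  · rw [Nat.sSup_of_not_bddAbove hb]
    omega

end Pool.Agent.Work.MP_1b4c08_al
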