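import Mathlib
import Pool.Agent.Work.MP_1b4c08_al.Sets

set_option autoImplicit false

namespace Pool.Agent.Work.MP_1b4c08_al

/-- Elements `1 ≤ i` of the parity of `p`. -/
def W (M p : ℕ) : Finset (Fin (M + 4)) :=
  Finset.univ.filter fun i => 1 ≤ i.val ∧ i.val % 2 = p % 2

/-- Elements `1 ≤ i ≤ k` of the parity of `k`. -/
def P (M k : ℕ) : Finset (Fin (M + 4)) :=
  Finset.univ.filter fun i => 1 ≤ i.val ∧ i.val ≤ k ∧ i.val % 2 = k % 2

/-- Elements `k < i` of the parity of `k`. -/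
def Q (M k : ℕ) : Finset (Fin (M + 4)) :=
  Finset.univ.filter fun i => k < i.val ∧ i.val % 2 = k % 2

def C1 (M : ℕ) : Finset (Fin (M + 4)) := W M 0

def C2 (M : ℕ) : Finset (Fin (M + 4)) :=
  Finset.univ.filter fun i => i.val = 0 ∨ i.val % 2 = 1

def D (M k : ℕ) : Finset (Fin (M + 4)) :=
  Finset.univ.filter fun i => i.val = k + 1 ∨ (k < i.val ∧ i.val % 2 = k % 2)

def fam (M : ℕ) : Finset (Finset (Fin (M + 4))) :=
  {C1 M, C2 M} ∪ (Finset.Icc 1 M).image (D M)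

lemma mem_fam {M : ℕ} {C : Finset (Fin (M + 4))} :
    C ∈ fam M ↔ C = C1 M ∨ C = C2 M ∨ ∃ k, 1 ≤ k ∧ k ≤ M ∧ C = D M k := by
  unfold fam
  simp only [Finset.mem_union, Finset.mem_insert, Finset.mem_singleton, Finset.mem_image,
    Finset.mem_Icc]
  constructor
  · rintro ((h | h) | ⟨k, ⟨h1, h2⟩, h3⟩)
    · exact Or.inl h
    · exact Or.inr (Or.inl h)
    · exact Or.inr (Or.inr ⟨k, h1, h2, h3.symm⟩)
  · rintro (h | h | ⟨k, h1, h2, h3⟩)
    · exact Or.inl (Or.inl h)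
    · exact Or.inl (Or.inr h)
    · exact Or.inr ⟨k, ⟨h1, h2⟩, h3.symm⟩

lemma mem_C1 {M : ℕ} {i : Fin (M + 4)} : i ∈ C1 M ↔ 1 ≤ i.val ∧ i.val % 2 = 0 := by
  simp [C1, W]

lemma mem_C2 {M : ℕ} {i : Fin (M + 4)} : i ∈ C2 M ↔ i.val = 0 ∨ i.val % 2 = 1 := by
  simp [C2]

lemma mem_D {M k : ℕ} {i : Fin (M + 4)} :
    i ∈ D M k ↔ i.val = k + 1 ∨ (k < i.val ∧ i.val % 2 = k % 2) := by
  simp [D]

lemma zero_not_mem_C1 {M : ℕ} : (⟨0, by omega⟩ : Fin (M + 4)) ∉ C1 M := by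
  rw [mem_C1]; simp

lemma zero_not_mem_D {M k : ℕ} : (⟨0, by omega⟩ : Fin (M + 4)) ∉ D M k := by
  rw [mem_D]; simp

lemma fam_anti (M : ℕ) : ∀ C ∈ fam M, ∀ C' ∈ fam M, C ⊆ C' → C = C' := by
  intro C hC C' hC' hsub
  rw [mem_fam] at hC hC'
  rcases hC with rfl | rfl | ⟨k, hk1, hk2, rfl⟩ <;> rcases hC' with rfl | rfl | ⟨l, hl1, hl2, rfl⟩
  · rfl
  · exfalso
    have := hsub (mem_C1.2 (show 1 ≤ (⟨2, by omega⟩ : Fin (M + 4)).val ∧ _ by simp))
    rw [mem_C2] at this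
    simp at this
  · exfalso
    have h2 := hsub (mem_C1.2 (show 1 ≤ (⟨2, by omega⟩ : Fin (M + 4)).val ∧ _ by simp))
    have h4 := hsub (mem_C1.2 (show 1 ≤ (⟨4, by omega⟩ : Fin (M + 4)).val ∧ _ by simp))
    rw [mem_D] at h2 h4
    simp only at h2 h4
    omega
  · exfalso
    have := hsub (mem_C2.2 (show (⟨0, by omega⟩ : Fin (M + 4)).val = 0 ∨ _ by simp))
    exact zero_not_mem_C1 this
  · rfl
  · exfalso
    have := hsub (mem_C2.2 (show (⟨0, by omega⟩ : Fin (M + 4)).val = 0 ∨ _ by simp))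
    exact zero_not_mem_D this
  · exfalso
    have h1 := hsub (mem_D.2 (show (⟨k + 1, by omega⟩ : Fin (M + 4)).val = k + 1 ∨ _ by simp))
    have h2 := hsub (mem_D.2 (show (⟨k + 2, by omega⟩ : Fin (M + 4)).val = k + 1 ∨
      (k < (⟨k + 2, by omega⟩ : Fin (M + 4)).val ∧ _) by simp))
    rw [mem_C1] at h1 h2
    simp only at h1 h2
    omega
  · exfalso
    have h1 := hsub (mem_D.2 (show (⟨k + 1, by omega⟩ : Fin (M + 4)).val = k + 1 ∨ _ by simp))
    have h2 := hsub (mem_D.2 (show (⟨k + 2, by omega⟩ : Fin (M + 4)).val = k + 1 ∨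
      (k < (⟨k + 2, by omega⟩ : Fin (M + 4)).val ∧ _) by simp))
    rw [mem_C2] at h1 h2
    simp only at h1 h2
    omega
  · have h1 := hsub (mem_D.2 (show (⟨k + 1, by omega⟩ : Fin (M + 4)).val = k + 1 ∨ _ by simp))
    have h2 := hsub (mem_D.2 (show (⟨k + 2, by omega⟩ : Fin (M + 4)).val = k + 1 ∨
      (k < (⟨k + 2, by omega⟩ : Fin (M + 4)).val ∧ _) by simp))
    rw [mem_D] at h1 h2
    simp only at h1 h2
    have : k = l := by omega
    rw [this]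

lemma fam_card (M : ℕ) (hM : 1 ≤ M) : ∀ C ∈ fam M, ∀ i, ∃ k, k ≠ i ∧ k ∉ C := by
  have aux : ∀ (C : Finset (Fin (M + 4))) (a b : Fin (M + 4)), a ≠ b → a ∉ C → b ∉ C →
      ∀ i, ∃ k, k ≠ i ∧ k ∉ C := by
    intro C a b hab ha hb i
    by_cases h : a = i
    · exact ⟨b, fun hb' => hab (h.trans hb'.symm), hb⟩
    · exact ⟨a, h, ha⟩
  intro C hC
  rw [mem_fam] at hC
  rcases hC with rfl | rfl | ⟨k, hk1, hk2, rfl⟩
  · refine aux _ ⟨0, by omega⟩ ⟨1, by omega⟩ (by simp) ?_ ?_ <;> rw [mem_C1] <;> simp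
  · refine aux _ ⟨2, by omega⟩ ⟨4, by omega⟩ (by simp) ?_ ?_ <;> rw [mem_C2] <;> simp
  · refine aux _ ⟨0, by omega⟩ ⟨1, by omega⟩ (by simp) ?_ ?_ <;> rw [mem_D] <;> simp <;> omega

lemma fam_ne_univ (M : ℕ) (hM : 1 ≤ M) : ∀ C ∈ fam M, C ≠ Finset.univ := by
  intro C hC h
  obtain ⟨k, _, hk⟩ := fam_card M hM C hC ⟨0, by omega⟩
  rw [h] at hk
  exact hk (Finset.mem_univ _)

lemma fam_pair (M : ℕ) (hM : 1 ≤ M) : ∀ C ∈ fam M, ∀ C' ∈ fam M,
    (∃ l, l ∉ C ∧ l ∉ C') ∨ (C = C1 M ∧ C' = C2 M) ∨ (C = C2 M ∧ C' = C1 M) := by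
  have aux : ∀ k, 1 ≤ k → k ≤ M → ∃ l, l ∉ C2 M ∧ l ∉ D M k := by
    intro k hk1 hk2
    by_cases h : k = 1
    · subst h
      refine ⟨⟨4, by omega⟩, ?_, ?_⟩
      · rw [mem_C2]; simp
      · rw [mem_D]; simp
    · refine ⟨⟨2, by omega⟩, ?_, ?_⟩
      · rw [mem_C2]; simp
      · rw [mem_D]; simp; omega
  intro C hC C' hC'
  rw [mem_fam] at hC hC'
  rcases hC with rfl | rfl | ⟨k, hk1, hk2, rfl⟩ <;> rcases hC' with rfl | rfl | ⟨l, hl1, hl2, rfl⟩
  · exact Or.inl ⟨_, zero_not_mem_C1, zero_not_mem_C1⟩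
  · exact Or.inr (Or.inl ⟨rfl, rfl⟩)
  · exact Or.inl ⟨_, zero_not_mem_C1, zero_not_mem_D⟩
  · exact Or.inr (Or.inr ⟨rfl, rfl⟩)
  · obtain ⟨l, hl, _⟩ := aux 1 le_rfl hM
    exact Or.inl ⟨l, hl, hl⟩
  · exact Or.inl (aux l hl1 hl2)
  · exact Or.inl ⟨_, zero_not_mem_D, zero_not_mem_C1⟩
  · obtain ⟨l, hl, hl'⟩ := aux k hk1 hk2
    exact Or.inl ⟨l, hl', hl⟩
  · exact Or.inl ⟨_, zero_not_mem_D, zero_not_mem_D⟩

lemma D_eq (M k : ℕ) (hk : k ≤ M) : D M k = insert ⟨k + 1, by omega⟩ (Q M k) := by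
  ext i
  simp only [D, Q, Finset.mem_insert, Finset.mem_filter, Finset.mem_univ, true_and, Fin.ext_iff]

lemma wt_D (M k : ℕ) (hk : k ≤ M) (a : Fin (M + 4) →₀ ℕ) :
    wt (D M k) a = a ⟨k + 1, by omega⟩ + wt (Q M k) a := by
  rw [D_eq M k hk]
  unfold wt
  rw [Finset.sum_insert]
  simp [Q]
  omega

lemma wt_Q_P (M k : ℕ) (hk : 1 ≤ k) (a : Fin (M + 4) →₀ ℕ) :
    wt (Q M k) a + wt (P M k) a = wt (W M k) a := by
  unfold wt
  rw [← Finset.sum_union]
  · apply Finset.sum_congr _ (fun _ _ => rfl)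
    ext i
    simp only [Q, P, W, Finset.mem_union, Finset.mem_filter, Finset.mem_univ, true_and]
    omega
  · rw [Finset.disjoint_left]
    intro i h1 h2
    simp only [Q, P, Finset.mem_filter, Finset.mem_univ, true_and] at h1 h2
    omega

lemma wt_P_succ (M k : ℕ) (hk : k + 2 ≤ M + 3) (a : Fin (M + 4) →₀ ℕ) :
    wt (P M (k + 2)) a = a ⟨k + 2, by omega⟩ + wt (P M k) a := by
  have : P M (k + 2) = insert ⟨k + 2, by omega⟩ (P M k) := by
    ext i
    simp only [P, Finset.mem_insert, Finset.mem_filter, Finset.mem_univ, true_and, Fin.ext_iff]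
    omega
  rw [this]
  unfold wt
  rw [Finset.sum_insert]
  simp [P]

lemma wt_W_le (M k : ℕ) (a : Fin (M + 4) →₀ ℕ) (n : ℕ) (h1 : wt (C1 M) a < n)
    (h2 : wt (C2 M) a < n) : wt (W M k) a < n := by
  rcases Nat.mod_two_eq_zero_or_one k with h | h
  · have : W M k = C1 M := by
      unfold C1 W; rw [h]
    rw [this]; exact h1
  · refine lt_of_le_of_lt ?_ h2
    unfold wt
    apply Finset.sum_le_sum_of_subset
    intro i hi
    simp only [W, C2, Finset.mem_filter, Finset.mem_univ, true_and] at hi ⊢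
    omega

/-- Fibonacci growth of the weights. -/
lemma growth (M : ℕ) (a : Fin (M + 4) →₀ ℕ) (n : ℕ) (h1 : wt (C1 M) a < n)
    (h2 : wt (C2 M) a < n) (hD : ∀ k, 1 ≤ k → k ≤ M → n ≤ wt (D M k) a) :
    ∀ k, k + 1 ≤ M + 1 → Nat.fib (k + 1) ≤ wt (P M k) a + 1 ∧
      Nat.fib (k + 2) ≤ wt (P M (k + 1)) a + 1 := by
  have step : ∀ (k : ℕ) (_ : 1 ≤ k) (hk2 : k ≤ M), 1 + wt (P M k) a ≤ a ⟨k + 1, by omega⟩ := by
    intro k hk1 hk2
    have e1 := hD k hk1 hk2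
    rw [wt_D M k hk2] at e1
    have e2 := wt_Q_P M k hk1 a
    have e3 := wt_W_le M k a n h1 h2
    omega
  intro k hk
  induction k with
  | zero => simp
  | succ k ih =>
    obtain ⟨ih1, ih2⟩ := ih (by omega)
    refine ⟨ih2, ?_⟩
    have e1 := step (k + 1) (by omega) (by omega)
    have e2 := wt_P_succ M k (by omega) a
    have e3 : Nat.fib (k + 1 + 2) = Nat.fib (k + 1) + Nat.fib (k + 2) := Nat.fib_add_two
    rw [e3, show k + 1 + 1 = k + 2 from rfl, e2]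
    have e4 : a ⟨k + 1 + 1, by omega⟩ = a ⟨k + 2, by omega⟩ := rfl
    rw [e4] at e1
    omega

lemma fam_inf (M : ℕ) (hM : 1 ≤ M) (n : ℕ) (hn : n ≤ Nat.fib (M + 1)) :
    ∀ a : Fin (M + 4) →₀ ℕ, wt (C1 M) a < n → wt (C2 M) a < n →
      ∃ D' ∈ fam M, D' ≠ C1 M ∧ D' ≠ C2 M ∧ wt D' a < n := by
  intro a h1 h2
  by_contra hcon
  push Not at hcon
  have hD : ∀ k, 1 ≤ k → k ≤ M → n ≤ wt (D M k) a := by
    intro k hk1 hk2
    refine hcon (D M k) (mem_fam.2 (Or.inr (Or.inr ⟨k, hk1, hk2, rfl⟩))) ?_ ?_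
    · intro h
      have h3 : (⟨k + 1, by omega⟩ : Fin (M + 4)) ∈ C1 M := by rw [← h, mem_D]; simp
      have h4 : (⟨k + 2, by omega⟩ : Fin (M + 4)) ∈ C1 M := by rw [← h, mem_D]; simp
      rw [mem_C1] at h3 h4
      simp only at h3 h4
      omega
    · intro h
      have h3 : (⟨0, by omega⟩ : Fin (M + 4)) ∈ D M k := by rw [h, mem_C2]; simp
      exact zero_not_mem_D h3
  obtain ⟨g1, g2⟩ := growth M a n h1 h2 hD M le_rfl
  -- a (M+1) ≥ 1 + wt (P M M) ≥ fib (M+1) ≥ n but a (M+1) ≤ side < n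
  have e1 := hD M hM le_rfl
  rw [wt_D M M le_rfl] at e1
  have e2 := wt_Q_P M M hM a
  have e3 := wt_W_le M M a n h1 h2
  have e4 := wt_W_le M (M + 1) a n h1 h2
  have e5 : a ⟨M + 1, by omega⟩ ≤ wt (W M (M + 1)) a := by
    unfold wt
    apply Finset.single_le_sum (f := fun i => a i) (fun _ _ => Nat.zero_le _)
    simp [W]
  omega

/-- The weight vector witnessing depth one for large `n`. -/
noncomputable def av (M n : ℕ) : Fin (M + 4) →₀ ℕ :=
  Finsupp.equivFunOnFinite.symm fun i =>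
    if i.val ≤ 1 then 0 else if i.val ≤ M + 1 then Nat.fib i.val
    else if i.val = M + 2 then n - Nat.fib (M + 1) else n - Nat.fib (M + 2)

lemma av_apply (M n : ℕ) (i : Fin (M + 4)) : av M n i =
    if i.val ≤ 1 then 0 else if i.val ≤ M + 1 then Nat.fib i.val
    else if i.val = M + 2 then n - Nat.fib (M + 1) else n - Nat.fib (M + 2) := rfl

lemma wt_P_av (M n : ℕ) : ∀ k, k + 1 ≤ M + 1 → wt (P M k) (av M n) + 1 = Nat.fib (k + 1) ∧
      wt (P M (k + 1)) (av M n) + 1 = Nat.fib (k + 2) := by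
  intro k hk
  induction k with
  | zero =>
    constructor
    · have : P M 0 = ∅ := by
        ext i
        simp only [P, Finset.mem_filter, Finset.mem_univ, true_and, Finset.notMem_empty, iff_false]
        omega
      simp [this, wt]
    · have : P M (0 + 1) = {⟨1, by omega⟩} := by
        ext i; simp [P, Fin.ext_iff]; omega
      rw [this]
      simp [wt, av_apply]
  | succ k ih =>
    obtain ⟨ih1, ih2⟩ := ih (by omega)
    refine ⟨ih2, ?_⟩
    have e2 := wt_P_succ M k (by omega) (av M n)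
    have e3 : Nat.fib (k + 1 + 2) = Nat.fib (k + 1) + Nat.fib (k + 2) := Nat.fib_add_two
    have e4 : av M n ⟨k + 2, by omega⟩ = Nat.fib (k + 2) := by
      rw [av_apply]
      simp only
      rw [if_neg (by omega), if_pos (by omega)]
    rw [e3, show k + 1 + 1 = k + 2 from rfl, e2, e4]
    omega

lemma wt_W_av (M n p : ℕ) (hn : Nat.fib (M + 2) ≤ n) (hn1 : 1 ≤ n) :
    wt (W M p) (av M n) + 1 = n := by
  have hfib : Nat.fib (M + 1) ≤ Nat.fib (M + 2) := Nat.fib_le_fib_succ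
  obtain ⟨h1, h2⟩ := wt_P_av M n M le_rfl
  by_cases hp : p % 2 = M % 2
  · have : W M p = P M (M + 2) := by
      ext i; simp only [W, P, Finset.mem_filter, Finset.mem_univ, true_and]
      have := i.2
      omega
    rw [this, wt_P_succ M M (by omega)]
    have e4 : av M n ⟨M + 2, by omega⟩ = n - Nat.fib (M + 1) := by
      rw [av_apply]
      simp only
      rw [if_neg (by omega), if_neg (by omega), if_pos trivial]
    rw [e4]
    omega
  · have : W M p = P M (M + 1 + 2) := by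
      ext i; simp only [W, P, Finset.mem_filter, Finset.mem_univ, true_and]
      have := i.2
      omega
    rw [this, wt_P_succ M (M + 1) (by omega)]
    have e4 : av M n ⟨M + 1 + 2, by omega⟩ = n - Nat.fib (M + 2) := by
      rw [av_apply]
      simp only
      rw [if_neg (by omega), if_neg (by omega), if_neg (by omega)]
    rw [e4]
    omega

lemma wt_C2_av (M n : ℕ) : wt (C2 M) (av M n) = wt (W M 1) (av M n) := by
  have : C2 M = insert ⟨0, by omega⟩ (W M 1) := by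
    ext i; simp only [W, C2, Finset.mem_insert, Finset.mem_filter, Finset.mem_univ, true_and,
      Fin.ext_iff]
    omega
  rw [this]
  unfold wt
  rw [Finset.sum_insert]
  · simp [av_apply]
  · simp [W]

lemma wt_D_av (M n k : ℕ) (hk1 : 1 ≤ k) (hk : k ≤ M) (hn : Nat.fib (M + 2) ≤ n) (hn1 : 1 ≤ n) :
    wt (D M k) (av M n) = n := by
  rw [wt_D M k hk]
  have e1 := wt_Q_P M k hk1 (av M n)
  have e2 := wt_W_av M n k hn hn1
  have e3 := (wt_P_av M n k (by omega)).1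
  have e4 : av M n ⟨k + 1, by omega⟩ = Nat.fib (k + 1) := by
    rw [av_apply]
    simp only
    rw [if_neg (by omega), if_pos (by omega)]
  rw [e4]
  omega

lemma C1_union_C2 (M : ℕ) : C1 M ∪ C2 M = Finset.univ := by
  ext i
  simp only [Finset.mem_union, mem_C1, mem_C2, Finset.mem_univ, iff_true]
  omega

lemma not_E (M n : ℕ) (hn : Nat.fib (M + 2) ≤ n) (hn1 : 1 ≤ n) :
    ∀ i ∈ C1 M, ∀ k ∈ C2 M,
      ¬ E (fam M) n (av M n + Finsupp.single i 1 + Finsupp.single k 1) := by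
  rintro i hi k hk ⟨C, hC, hlt⟩
  rw [wt_add, wt_add] at hlt
  rw [mem_fam] at hC
  rcases hC with rfl | rfl | ⟨l, hl1, hl2, rfl⟩
  · rw [wt_single_mem _ hi] at hlt
    have := wt_W_av M n 0 hn hn1
    unfold C1 at hlt
    omega
  · rw [wt_single_mem _ hk, wt_C2_av] at hlt
    have := wt_W_av M n 1 hn hn1
    omega
  · rw [wt_D_av M n l hl1 hl2 hn hn1] at hlt
    omega

lemma growth_bound (c : ℕ) : ∃ M, 1 ≤ M ∧ c * (M + 5) ≤ Nat.fib (M + 1) := by
  refine ⟨2 * (4 * c + 5), by omega, ?_⟩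
  have h1 : Nat.fib (4 * c + 5 + 1) * Nat.fib (4 * c + 5 + 1) ≤ Nat.fib (2 * (4 * c + 5) + 1) := by
    rw [Nat.fib_two_mul_add_one]
    nlinarith [Nat.zero_le (Nat.fib (4 * c + 5) ^ 2)]
  have h2 : 4 * c + 5 + 1 ≤ Nat.fib (4 * c + 5 + 1) := Nat.le_fib_self (by omega)
  nlinarith

variable (K : Type) [Field K]

theorem depth_one (M n : ℕ) (hM : 1 ≤ M) (hn : Nat.fib (M + 2) ≤ n) (hn1 : 1 ≤ n) :
    sSup (T K (fam M) n) = 1 := by
  refine sSup_eq_one (fam M) n (C1 M) (C2 M) (mem_fam.2 (Or.inl rfl))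
    (mem_fam.2 (Or.inr (Or.inl rfl))) (fam_ne_univ M hM) (C1_union_C2 M) (av M n) ?_ ?_
    (not_E M n hn hn1)
  · have := wt_W_av M n 0 hn hn1
    unfold C1
    omega
  · rw [wt_C2_av]
    have := wt_W_av M n 1 hn hn1
    omega

theorem depth_ne_one (M n : ℕ) (hM : 1 ≤ M) (hn : n ≤ Nat.fib (M + 1)) (hn1 : 1 ≤ n) :
    sSup (T K (fam M) n) ≠ 1 := by
  apply sSup_ne_one
  exact two_mem_T (fam M) n hn1 ⟨C1 M, mem_fam.2 (Or.inl rfl)⟩ (C1 M) (C2 M) (fam_card M hM)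
    (fam_pair M hM) (fam_ne_univ M hM) (fam_inf M hM n hn)

end Pool.Agent.Work.MP_1b4c08_al
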